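import Pool.Agent.H43.CM.D.Iface

/-!
# MP_7fe4b4_ag : PART D, the induction
-/

open MvPolynomial

noncomputable section

namespace CMT

variable {n : ℕ}

theorem good_all (x v : Equiv.Perm (Fin n)) (h : (SS x v).Nonempty) : Good (SS x v) (len v) := by
  suffices H : ∀ m (x v : Equiv.Perm (Fin n)),
      len (Fin.revPerm : Equiv.Perm (Fin n)) - len x = m → (SS x v).Nonempty →
        Good (SS x v) (len v) from H _ x v rfl h
  intro m
  induction m with
  | zero =>
    intro x v hm h
    have : x = Fin.revPerm :=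
      eq_of_ble_of_len (ble_rev x) (le_antisymm (len_le_of_ble (ble_rev x)) (by omega))
    subst this
    have := SS_rev_empty h
    subst this
    exact good_base
  | succ m ih =>
    intro x v hm h
    have hx : x ≠ Fin.revPerm := by
      rintro rfl
      omega
    obtain ⟨q, hq, ha⟩ := exists_asc x hx
    have hm' : len (Fin.revPerm : Equiv.Perm (Fin n)) - len (x * sr q hq) = m := by
      rw [len_mul_asc _ _ _ ha]; omega
    obtain ⟨c, hc, -⟩ := exists_gamE (n := n) q hq
    obtain ⟨c', hc', -⟩ := exists_gamE' (n := n) q hq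
    rcases asc_or_dsc v q hq with hv | hv
    · have hw : dsc (v * sr q hq) q hq := (dsc_mul_iff v q hq).2 hv
      set w := v * sr q hq with hwdef
      have hvw : w * sr q hq = v := mul_sr_sr v q hq
      have hab := ab_ne_zero x w q hq hw
      have hba : ∀ y ∈ Tb x w q hq, ¬ (aeval y (bP x w q hq) = 0 ∧ aeval y (aP x w q hq) = 0) :=
        fun y hy h => hab y hy ⟨h.2, h.1⟩
      have e1 := c.good_iff (SS x v) (Seq (Tb x w q hq) (aP x w q hq) (bP x w q hq))
        (by intro y; rw [hc, ← hvw]; exact (gam_mem_eq x w q hq ha hw y).symm) (len v)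
      have e2 := c'.good_iff (SS (x * sr q hq) w) (Sne (Tb x w q hq) (bP x w q hq) (aP x w q hq))
        (by intro y; rw [hc']; exact (gam'_mem_ne x w q hq ha hw y).symm) (len w)
      have e3 := c'.good_iff (SS (x * sr q hq) v) (Seq (Tb x w q hq) (bP x w q hq) (aP x w q hq))
        (by intro y; rw [hc', ← hvw]; exact (gam'_mem_eq x w q hq ha hw y).symm) (len v)
      have hne : (Seq (Tb x w q hq) (aP x w q hq) (bP x w q hq)).Nonempty := by
        obtain ⟨z, hz⟩ := h
        obtain ⟨y, rfl⟩ := c.g_surj z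
        refine ⟨y, ?_⟩
        rw [hc, ← hvw] at hz
        exact (gam_mem_eq x w q hq ha hw y).1 hz
      have hT : (Tb x w q hq).Nonempty := by
        obtain ⟨y, hy⟩ := hne
        exact ⟨_, hy.1⟩
      have hlen : len w = len v + 1 := len_mul_asc v q hq hv
      have hSw : (SS (x * sr q hq) w).Nonempty := by
        obtain ⟨y, hy⟩ := (Sne_nonempty_iff _ _ _ hba).2 hT
        exact ⟨gam' y, (gam'_mem_ne x w q hq ha hw y).2 hy⟩
      rw [e1]
      refine good_Seq _ _ _ hab _ ?_ ?_ hne
      · apply good_of_Sne _ _ _ hba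
        rw [← hlen, ← e2]
        exact ih _ _ hm' hSw
      · intro hne'
        rw [← e3]
        refine ih _ _ hm' ?_
        obtain ⟨y, hy⟩ := hne'
        exact ⟨gam' y, hvw ▸ (gam'_mem_eq x w q hq ha hw y).2 hy⟩
    · have hab := ab_ne_zero x v q hq hv
      have hba : ∀ y ∈ Tb x v q hq, ¬ (aeval y (bP x v q hq) = 0 ∧ aeval y (aP x v q hq) = 0) :=
        fun y hy h => hab y hy ⟨h.2, h.1⟩
      have e1 := c.good_iff (SS x v) (Sne (Tb x v q hq) (aP x v q hq) (bP x v q hq))
        (by intro y; rw [hc]; exact (gam_mem_ne x v q hq ha hv y).symm) (len v)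
      have e2 := c'.good_iff (SS (x * sr q hq) v) (Sne (Tb x v q hq) (bP x v q hq) (aP x v q hq))
        (by intro y; rw [hc']; exact (gam'_mem_ne x v q hq ha hv y).symm) (len v)
      have hne : (Sne (Tb x v q hq) (aP x v q hq) (bP x v q hq)).Nonempty := by
        obtain ⟨z, hz⟩ := h
        obtain ⟨y, rfl⟩ := c.g_surj z
        refine ⟨y, ?_⟩
        rw [hc] at hz
        exact (gam_mem_ne x v q hq ha hv y).1 hz
      have hT : (Tb x v q hq).Nonempty := by
        obtain ⟨y, hy⟩ := hne
        exact ⟨_, hy.1⟩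
      have hSw : (SS (x * sr q hq) v).Nonempty := by
        obtain ⟨y, hy⟩ := (Sne_nonempty_iff _ _ _ hba).2 hT
        exact ⟨gam' y, (gam'_mem_ne x v q hq ha hv y).2 hy⟩
      rw [e1]
      apply good_Sne_swap _ _ _ hab
      rw [← e2]
      exact ih _ _ hm' hSw

end CMT
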