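import Pool.Agent.H43.CM.A.Iface
import Pool.Agent.H43.CM.Ch.Iface
import Pool.Agent.H43.CM.C.DepPoly

/-!
# MP_7fe4b4_ag, job D-Base : the base case of PART D

`R_{w0,w0}` is the polynomial ring in the variables `Low n`, and `len w0 = #(Low n)`.

Plan. `SS_rev : SS revPerm revPerm = univ`, so `VI = ⊥` (a polynomial over the infinite field `ℂ`
vanishing everywhere is zero: `MvPolynomial.funext`), so `CR (SS ..)` is isomorphic to `MvPolynomial (Low n) ℂ`
(`RingEquiv.quotientBot`-like: `AlgEquiv.quotientBot`, or show directly that the quotient map is bijective).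
* domain: transport; integrally closed: `MvPolynomial (Low n) ℂ` is a UFD, hence a normalized/GCD domain, hence
  integrally closed (`UniqueFactorizationMonoid → IsIntegrallyClosed` instance), transport by
  `IsIntegrallyClosed.of_equiv`.
* `Dep`: the list of all variables (in any order, `Finset.univ.toList.map mk (X e)`, length `card (Low n)`) is a
  weakly regular sequence.  `len revPerm = card (Low n)`: both are the number of pairs (a,b), a<b
  (for `revPerm` every pair `a < b` is an inversion: `Fin.rev_lt_rev`).
  Weakly regular: Mathlib `RingTheory.Sequence.IsWeaklyRegular`; there may be a ready lemma for variables of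
  `MvPolynomial` (search for `IsRegular` / `isWeaklyRegular` and `MvPolynomial`).  Otherwise: by induction on the list `es` of
  distinct variables: for every list of distinct variables `es` and every set `s` of variables disjoint from `es`,
  `es.map X` is weakly regular on `MvPolynomial ι ℂ ⧸ span (X '' s)`; the quotient is a domain (it is the polynomial
  ring in the remaining variables; e.g. `Ideal.span (X '' s)` is prime: Mathlib `MvPolynomial.isPrime_span_X_image_set`
  or similar; search `MvPolynomial` `IsPrime` `span` `X`), and `X e` is not in it for `e ∉ s`, so multiplication by `X e` is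
  injective on it; and the quotient by `X e` is the quotient by `span (X '' (insert e s))`.
  (`RingTheory.Sequence.isWeaklyRegular_iff_Fin` or the definition by `drop/take` are convenient:
  `IsWeaklyRegular M rs ↔ ∀ i < length, IsSMulRegular (M ⧸ (ofList (rs.take i) • ⊤)) rs[i]`.)
-/

open MvPolynomial

noncomputable section

namespace CMT

variable {n : ℕ}

theorem base_card_low : Nat.card (Low n) = len (Fin.revPerm : Equiv.Perm (Fin n)) := by
  classical
  unfold len
  rw [Nat.card_eq_fintype_card, Fintype.card_subtype]
  refine Finset.card_bij (fun e _ => (e.2, e.1)) ?_ ?_ ?_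
  · intro e he
    rw [Finset.mem_filter] at he ⊢
    refine ⟨Finset.mem_univ _, he.2, ?_⟩
    rw [Fin.revPerm_apply, Fin.revPerm_apply, Fin.rev_lt_rev]
    exact he.2
  · intro e _ e' _ h
    rw [Prod.mk.injEq] at h
    exact Prod.ext h.2 h.1
  · intro e he
    rw [Finset.mem_filter] at he
    refine ⟨(e.2, e.1), ?_, rfl⟩
    rw [Finset.mem_filter]
    exact ⟨Finset.mem_univ _, he.2.1⟩

theorem base_VI : VI (SS (Fin.revPerm : Equiv.Perm (Fin n)) Fin.revPerm) = ⊥ := by
  rw [SS_rev, eq_bot_iff]
  intro f hf
  rw [mem_vanishingIdeal_iff] at hf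
  rw [Ideal.mem_bot]
  refine MvPolynomial.funext fun x => ?_
  have := hf x (Set.mem_univ _)
  rw [MvPolynomial.aeval_eq_eval] at this
  rw [map_zero]
  exact this

theorem good_base : Good (SS (Fin.revPerm : Equiv.Perm (Fin n)) Fin.revPerm)
    (len (Fin.revPerm : Equiv.Perm (Fin n))) := by
  have key : ∀ J : Ideal (MvPolynomial (Low n) ℂ), J = ⊥ →
      (IsDomain (MvPolynomial (Low n) ℂ ⧸ J) ∧ IsIntegrallyClosed (MvPolynomial (Low n) ℂ ⧸ J) ∧
        Dep (MvPolynomial (Low n) ℂ ⧸ J) (Ideal.span (Set.range fun e => Ideal.Quotient.mk J (X e)))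
          (MvPolynomial (Low n) ℂ ⧸ J) (Nat.card (Low n))) := by
    rintro J rfl
    obtain ⟨e, he⟩ : ∃ e : MvPolynomial (Low n) ℂ ≃+* (MvPolynomial (Low n) ℂ ⧸
        (⊥ : Ideal (MvPolynomial (Low n) ℂ))), ∀ f, e f = Ideal.Quotient.mk _ f :=
      ⟨(RingEquiv.quotientBot (MvPolynomial (Low n) ℂ)).symm, fun f => rfl⟩
    refine ⟨e.symm.toMulEquiv.isDomain _, IsIntegrallyClosed.of_equiv e, ?_⟩
    have h1 := dep_ringEquiv e _ _ (dep_mvPolynomial (ι := Low n))
    rw [Ideal.map_span, ← Set.range_comp] at h1
    have h2 : (⇑(e : MvPolynomial (Low n) ℂ →+* MvPolynomial (Low n) ℂ ⧸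
        (⊥ : Ideal (MvPolynomial (Low n) ℂ))) ∘ (X : Low n → MvPolynomial (Low n) ℂ)) =
        fun i => Ideal.Quotient.mk _ (X i) := by
      funext i
      exact he (X i)
    rw [h2] at h1
    exact h1
  have h := key _ (base_VI (n := n))
  rw [base_card_low] at h
  exact h

end CMT
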