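import Pool.Agent.H43.CM.Ch.Iface
import Pool.Agent.H43.CM.C.Val
import Pool.Agent.H43.CM.C.DepPoly

/-!
# JOB CM-D01 : `CR (Sne T a b) = CR(T)[t]`

* `Good.congr`: `CR S = MvPolynomial / VI S` and `orig S` only depend on `VI S`: `Good` unfolds to a
  statement in which only `VI S` occurs; `rw`/`subst` with a generalized ideal, or the ring isomorphism
  `Ideal.quotEquivOfEq h` and `dep_ringEquiv`, `IsIntegrallyClosed.of_equiv`.
* `sneEquiv`: `VI (Sne T a b) = ker (toPoly T)` (`VI_Sne`), `toPoly_surjective`: quotient isomorphism;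
  the ideal of the origin is generated by the images `X` and `C (mk X_j)`.
* `good_of_Sne`: by `sneEquiv`, `CR(T)[X]` is an integrally closed domain with
  `Dep CR(T)[X] ((orig T).map C ⊔ span {X}) CR(T)[X] (d+1)` (`dep_ringEquiv`).  So `CR T` is a domain
  (embeds by `C`), `normal_of_poly`, `dep_of_poly` (`CR T` is Noetherian).
* `good_Sne_swap`: `VI_Sne` for `(a, b)` and `(b, a)` gives the same ideal; `Good.congr`.
-/

open MvPolynomial

noncomputable section

namespace CMT

/-- `CR` and `Good` only depend on the vanishing ideal -/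
theorem Good.congr {ι : Type} {S S' : Set (ι → ℂ)} (h : VI S = VI S') {d : ℕ} (hS : Good S d) :
    Good S' d := by
  have key : ∀ I J : Ideal (MvPolynomial ι ℂ), I = J →
      (IsDomain (MvPolynomial ι ℂ ⧸ I) ∧ IsIntegrallyClosed (MvPolynomial ι ℂ ⧸ I) ∧
        Dep (MvPolynomial ι ℂ ⧸ I) (Ideal.span (Set.range fun e => Ideal.Quotient.mk I (X e)))
          (MvPolynomial ι ℂ ⧸ I) d) →
      (IsDomain (MvPolynomial ι ℂ ⧸ J) ∧ IsIntegrallyClosed (MvPolynomial ι ℂ ⧸ J) ∧
        Dep (MvPolynomial ι ℂ ⧸ J) (Ideal.span (Set.range fun e => Ideal.Quotient.mk J (X e)))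
          (MvPolynomial ι ℂ ⧸ J) d) := by
    rintro I _ rfl h
    exact h
  exact key _ _ h hS

/-- `CR (Sne T a b) = CR(T)[t]` -/
theorem sneEquiv {κ : Type} (T : Set (κ → ℂ)) (a b : MvPolynomial κ ℂ)
    (hab : ∀ y ∈ T, ¬ (aeval y a = 0 ∧ aeval y b = 0)) :
    ∃ e : CR (Sne T a b) ≃+* Polynomial (CR T),
      (∀ f, e (Ideal.Quotient.mk _ f) = toPoly T f) ∧
      (orig (Sne T a b)).map (e : CR (Sne T a b) →+* Polynomial (CR T)) =
        (orig T).map (Polynomial.C : CR T →+* Polynomial (CR T)) ⊔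
          Ideal.span {Polynomial.X} := by
  obtain ⟨e, he⟩ : ∃ e : CR (Sne T a b) ≃+* Polynomial (CR T),
      ∀ f, e (Ideal.Quotient.mk _ f) = toPoly T f :=
    ⟨(Ideal.quotEquivOfEq (VI_Sne T a b hab)).trans
      (RingHom.quotientKerEquivOfSurjective
        (f := ((toPoly T : MvPolynomial (Option κ) ℂ →ₐ[ℂ] Polynomial (CR T)) :
          MvPolynomial (Option κ) ℂ →+* Polynomial (CR T)))
        (toPoly_surjective T)), fun f => rfl⟩
  refine ⟨e, he, ?_⟩
  have h0 : toPoly T (X none) = Polynomial.X := by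
    unfold toPoly
    rw [aeval_X]
  have h1 : ∀ j, toPoly T (X (some j)) = Polynomial.C (Ideal.Quotient.mk (VI T) (X j)) := by
    intro j
    unfold toPoly
    rw [aeval_X]
  unfold orig
  rw [Ideal.map_span, Ideal.map_span, ← Set.range_comp, ← Set.range_comp, ← Ideal.span_union]
  congr 1
  ext f
  constructor
  · rintro ⟨i, rfl⟩
    rw [Function.comp_apply, RingEquiv.coe_toRingHom, he]
    cases i with
    | none => rw [h0]; exact Or.inr rfl
    | some j => rw [h1]; exact Or.inl ⟨j, rfl⟩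
  · rintro (⟨j, rfl⟩ | hf)
    · refine ⟨some j, ?_⟩
      rw [Function.comp_apply, RingEquiv.coe_toRingHom, he, h1]
      rfl
    · rw [Set.mem_singleton_iff] at hf
      refine ⟨none, ?_⟩
      rw [Function.comp_apply, RingEquiv.coe_toRingHom, he, h0, hf]

/-- `CR (Sne T a b) = CR(T)[t]` : from the polynomial ring down -/
theorem good_of_Sne {κ : Type} [Finite κ] (T : Set (κ → ℂ)) (a b : MvPolynomial κ ℂ)
    (hab : ∀ y ∈ T, ¬ (aeval y a = 0 ∧ aeval y b = 0)) (d : ℕ) (h : Good (Sne T a b) (d + 1)) :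
    Good T d := by
  obtain ⟨e, -, he⟩ := sneEquiv T a b hab
  obtain ⟨h1, h2, h3⟩ := h
  have hd : IsDomain (Polynomial (CR T)) := e.symm.toMulEquiv.isDomain _
  have hi : IsIntegrallyClosed (Polynomial (CR T)) := IsIntegrallyClosed.of_equiv e
  have hd' : IsDomain (CR T) :=
    Function.Injective.isDomain (Polynomial.C : CR T →+* Polynomial (CR T)) Polynomial.C_injective
  have h4 := dep_ringEquiv (R := CR (Sne T a b)) (S := Polynomial (CR T)) e _ _ h3
  rw [he] at h4
  exact ⟨hd', normal_of_poly hi, dep_of_poly _ d h4⟩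

theorem good_Sne_swap {κ : Type} (T : Set (κ → ℂ)) (a b : MvPolynomial κ ℂ)
    (hab : ∀ y ∈ T, ¬ (aeval y a = 0 ∧ aeval y b = 0)) (d : ℕ) (h : Good (Sne T b a) d) :
    Good (Sne T a b) d := by
  refine Good.congr ?_ h
  rw [VI_Sne T a b hab, VI_Sne T b a fun y hy hh => hab y hy ⟨hh.2, hh.1⟩]

end CMT
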