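import Pool.Agent.H43.CM.D.Good1
import Pool.Agent.H43.CM.C.Norm
import Pool.Agent.H43.CM.C.DepAdj

/-!
# JOB CM-D02 : `CR (Seq T a b) = CR(T)[τ]` is a normal domain of depth `≥ d`

* `seqEquiv`: `R := CR T` a domain, `K := FractionRing R`, `τ = tau T a b = b/a`, `a ∉ VI T`.  The
  surjective ring homomorphism `f ↦ evT R τ (toPoly T f)` from `MvPolynomial (Option κ) ℂ` onto
  `adj R τ` has the kernel `VI (Seq T a b)` by `VI_Seq` (`evTau` is the composition of `evT` and the
  inclusion `adj R τ ⊆ K`).  The ideal of the origin is generated by the images of the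
  `X (some j)`, i.e. the `algebraMap (mk X_j)`, and of `X none`, i.e. `τ`: this is `adjI (orig T) τ`.
* `orig_cases`: `orig T` is `⊤` or maximal: `CR T / orig T` is a quotient of
  `MvPolynomial κ ℂ / (X_j) = ℂ`.
* `good_Seq`: `a ∉ VI T` by `Seq_nonempty_iff`.  Transport everything by `seqEquiv`
  (`dep_ringEquiv`, `MulEquiv.isDomain`, `IsIntegrallyClosed.of_equiv`).  `adj R τ` is a domain.
  - If `b ∈ VI T`: `τ = 0`, `adj R 0 = ⊥ ≅ R` (`Algebra.adjoin_singleton_zero..`,
    `Algebra.botEquivOfInjective`) and `adjI (orig T) 0` corresponds to `orig T`.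
  - If `b ∉ VI T`: `τ ≠ 0`, `Seq T b a` is nonempty (`Seq_nonempty_iff` for `(b, a)`), so
    `Good (Seq T b a) d`, and by `seqEquiv` for `(b, a)`: `adj R τ⁻¹` (`tau T b a = (tau T a b)⁻¹`) is
    integrally closed with `Dep _ (adjI (orig T) τ⁻¹) _ d`.  `normal_adj`.  Depth: if
    `adjI (orig T) τ = ⊤` use `dep_of_smul_eq` with `y = 1`; otherwise `orig T ≠ ⊤`, so it is maximal and
    `dep_adj` applies.
-/

open MvPolynomial

noncomputable section

namespace CMT

theorem Good2_coe {R : Type} [CommRing R] {K : Type} [Field K] [Algebra R K] (t : K)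
    (p : Polynomial R) : ((evT R t p : adj R t) : K) = Polynomial.aeval t p :=
  (Polynomial.aeval_algHom_apply (adj R t).val (tt R t) p).symm

theorem seqEquiv {κ : Type} (T : Set (κ → ℂ)) [IsDomain (CR T)] (a b : MvPolynomial κ ℂ)
    (hab : ∀ y ∈ T, ¬ (aeval y a = 0 ∧ aeval y b = 0)) (ha : a ∉ VI T) :
    ∃ e : CR (Seq T a b) ≃+* adj (CR T) (tau T a b),
      (∀ f, e (Ideal.Quotient.mk _ f) = evT (CR T) (tau T a b) (toPoly T f)) ∧
      (orig (Seq T a b)).map (e : CR (Seq T a b) →+* adj (CR T) (tau T a b)) =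
        adjI (orig T) (tau T a b) := by
  let φ : MvPolynomial (Option κ) ℂ →+* adj (CR T) (tau T a b) :=
    ((evT (CR T) (tau T a b) : Polynomial (CR T) →ₐ[CR T] adj (CR T) (tau T a b)) :
      Polynomial (CR T) →+* adj (CR T) (tau T a b)).comp
      (toPoly T : MvPolynomial (Option κ) ℂ →+* Polynomial (CR T))
  have hφ : ∀ f, φ f = evT (CR T) (tau T a b) (toPoly T f) := fun f => rfl
  have hs : Function.Surjective φ := by
    intro y
    obtain ⟨p, hp⟩ := evT_surjective (R := CR T) (tau T a b) y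
    obtain ⟨f, hf⟩ := toPoly_surjective T p
    exact ⟨f, by rw [hφ, hf, hp]⟩
  have hk : VI (Seq T a b) = RingHom.ker φ := by
    ext f
    rw [VI_Seq T a b hab ha f, RingHom.mem_ker, hφ]
    have h1 : ((evT (CR T) (tau T a b) (toPoly T f) : adj (CR T) (tau T a b)) :
        FractionRing (CR T)) = evTau T a b (toPoly T f) := Good2_coe _ _
    rw [← h1]
    constructor
    · intro h
      exact Subtype.ext h
    · intro h
      rw [h]
      rfl
  let e : CR (Seq T a b) ≃+* adj (CR T) (tau T a b) :=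
    (Ideal.quotEquivOfEq hk).trans (RingHom.quotientKerEquivOfSurjective hs)
  have he : ∀ f, e (Ideal.Quotient.mk _ f) = evT (CR T) (tau T a b) (toPoly T f) := fun f => rfl
  refine ⟨e, he, ?_⟩
  have hX : ∀ i, (e : CR (Seq T a b) →+* adj (CR T) (tau T a b)) (Ideal.Quotient.mk _ (X i)) =
      evT (CR T) (tau T a b) (toPoly T (X i)) := fun i => he _
  unfold orig
  rw [Ideal.map_span, ← Set.range_comp, Option.range_eq, Ideal.span_insert]
  unfold adjI
  rw [sup_comm]
  congr 1
  · rw [Ideal.map_span, ← Set.range_comp]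
    congr 1
    congr 1
    funext j
    simp only [Function.comp_apply]
    rw [hX]
    simp [toPoly, evT]
  · congr 1
    simp only [Function.comp_apply]
    rw [hX]
    simp [toPoly, evT]

theorem Good2_maximal {κ : Type} :
    (Ideal.span (Set.range (X : κ → MvPolynomial κ ℂ))).IsMaximal := by
  have h1 : Ideal.span (Set.range (X : κ → MvPolynomial κ ℂ)) =
      RingHom.ker (constantCoeff : MvPolynomial κ ℂ →+* ℂ) := by
    ext f
    rw [RingHom.mem_ker, ← Set.image_univ, mem_ideal_span_X_image]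
    constructor
    · intro h
      by_contra hc
      obtain ⟨i, -, hi⟩ := h 0 (by rwa [mem_support_iff])
      exact hi rfl
    · intro h m hm
      have hm0 : m ≠ 0 := by
        rintro rfl
        rw [mem_support_iff] at hm
        exact hm h
      obtain ⟨i, hi⟩ := Finsupp.ne_iff.1 hm0
      exact ⟨i, Set.mem_univ i, hi⟩
  rw [h1]
  exact RingHom.ker_isMaximal_of_surjective _ (fun c => ⟨C c, by simp⟩)

theorem orig_cases {κ : Type} (T : Set (κ → ℂ)) : orig T = ⊤ ∨ (orig T).IsMaximal := by
  have h1 : orig T = (Ideal.span (Set.range (X : κ → MvPolynomial κ ℂ))).map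
      (Ideal.Quotient.mk (VI T)) := by
    unfold orig
    rw [Ideal.map_span, ← Set.range_comp]
    rfl
  rw [h1]
  exact Ideal.map_eq_top_or_isMaximal_of_surjective _ Ideal.Quotient.mk_surjective Good2_maximal

/-- transport of normality and depth -/
theorem Good2_transport {κ : Type} (T : Set (κ → ℂ)) [IsDomain (CR T)] (a b : MvPolynomial κ ℂ)
    (hab : ∀ y ∈ T, ¬ (aeval y a = 0 ∧ aeval y b = 0)) (ha : a ∉ VI T) (d : ℕ)
    (h1 : IsIntegrallyClosed (adj (CR T) (tau T a b)))
    (h2 : Dep (adj (CR T) (tau T a b)) (adjI (orig T) (tau T a b)) (adj (CR T) (tau T a b)) d) :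
    Good (Seq T a b) d := by
  obtain ⟨e, he1, he2⟩ := seqEquiv T a b hab ha
  refine ⟨MulEquiv.isDomain _ e.toMulEquiv, IsIntegrallyClosed.of_equiv e.symm, ?_⟩
  have h3 := dep_ringEquiv e.symm _ d h2
  have h4 : (adjI (orig T) (tau T a b)).map
      (e.symm : adj (CR T) (tau T a b) →+* CR (Seq T a b)) = orig (Seq T a b) := by
    rw [← he2, Ideal.map_map]
    have h5 : (e.symm : adj (CR T) (tau T a b) →+* CR (Seq T a b)).comp
        (e : CR (Seq T a b) →+* adj (CR T) (tau T a b)) = RingHom.id _ :=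
      RingHom.ext fun x => e.symm_apply_apply x
    rw [h5, Ideal.map_id]
  rw [h4] at h3
  exact h3

/-- transport in the other direction -/
theorem Good2_back {κ : Type} (T : Set (κ → ℂ)) [IsDomain (CR T)] (a b : MvPolynomial κ ℂ)
    (hab : ∀ y ∈ T, ¬ (aeval y a = 0 ∧ aeval y b = 0)) (ha : a ∉ VI T) (d : ℕ)
    (h : Good (Seq T a b) d) :
    IsIntegrallyClosed (adj (CR T) (tau T a b)) ∧
    Dep (adj (CR T) (tau T a b)) (adjI (orig T) (tau T a b)) (adj (CR T) (tau T a b)) d := by
  obtain ⟨e, he1, he2⟩ := seqEquiv T a b hab ha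
  obtain ⟨j1, j2, j3⟩ := h
  refine ⟨IsIntegrallyClosed.of_equiv e, ?_⟩
  have h3 := dep_ringEquiv e _ d j3
  rw [he2] at h3
  exact h3

/-- the main step (uses PART C) -/
theorem good_Seq {κ : Type} [Finite κ] (T : Set (κ → ℂ)) (a b : MvPolynomial κ ℂ)
    (hab : ∀ y ∈ T, ¬ (aeval y a = 0 ∧ aeval y b = 0)) (d : ℕ) (h1 : Good T d)
    (h2 : (Seq T b a).Nonempty → Good (Seq T b a) d) (hne : (Seq T a b).Nonempty) :
    Good (Seq T a b) d := by
  obtain ⟨i1, i2, i3⟩ := h1
  have ha : a ∉ VI T := (Seq_nonempty_iff T a b hab).1 hne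
  have hab' : ∀ y ∈ T, ¬ (aeval y b = 0 ∧ aeval y a = 0) := fun y hy h => hab y hy ⟨h.2, h.1⟩
  have hinj : Function.Injective (algebraMap (CR T) (FractionRing (CR T))) :=
    IsFractionRing.injective _ _
  by_cases hb : b ∈ VI T
  · have ht : tau T a b = 0 := by
      unfold tau
      rw [Ideal.Quotient.eq_zero_iff_mem.2 hb, map_zero, zero_div]
    have hbij : Function.Bijective (algebraMap (CR T) (adj (CR T) (tau T a b))) := by
      constructor
      · intro x y hxy
        exact hinj (congrArg Subtype.val hxy)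
      · intro y
        obtain ⟨p, hp⟩ := (mem_adj_iff (tau T a b) (y : FractionRing (CR T))).1 y.2
        refine ⟨p.coeff 0, Subtype.ext ?_⟩
        rw [← hp, ht]
        show algebraMap (CR T) (FractionRing (CR T)) (p.coeff 0) = _
        rw [Polynomial.coeff_zero_eq_aeval_zero']
    let e0 : CR T ≃+* adj (CR T) (tau T a b) := RingEquiv.ofBijective _ hbij
    refine Good2_transport T a b hab ha d (IsIntegrallyClosed.of_equiv e0) ?_
    have h3 := dep_ringEquiv e0 (orig T) d i3
    have h4 : adjI (orig T) (tau T a b) =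
        (orig T).map (e0 : CR T →+* adj (CR T) (tau T a b)) := by
      unfold adjI
      have h5 : tt (CR T) (tau T a b) = 0 := Subtype.ext ht
      have h6 : Ideal.span {tt (CR T) (tau T a b)} = ⊥ := by
        rw [h5, Ideal.span_singleton_eq_bot]
      rw [h6, sup_bot_eq]
      rfl
    rw [h4]
    exact h3
  · have ht : tau T a b ≠ 0 := by
      unfold tau
      refine div_ne_zero ?_ ?_
      · rw [Ne, map_eq_zero_iff _ hinj, Ideal.Quotient.eq_zero_iff_mem]
        exact hb
      · rw [Ne, map_eq_zero_iff _ hinj, Ideal.Quotient.eq_zero_iff_mem]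
        exact ha
    have htau : tau T b a = (tau T a b)⁻¹ := by
      unfold tau
      rw [inv_div]
    have h3 := h2 ((Seq_nonempty_iff T b a hab').2 hb)
    obtain ⟨k1, k2⟩ := Good2_back T b a hab' hb d h3
    rw [htau] at k1 k2
    refine Good2_transport T a b hab ha d (normal_adj _ ht k1) ?_
    by_cases htop : adjI (orig T) (tau T a b) = ⊤
    · exact dep_of_smul_eq _ _ d 1 (by rw [htop]; trivial) (fun x => one_smul _ x)
    · have hmax : (orig T).IsMaximal := by
        rcases orig_cases T with h | h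
        · exfalso
          apply htop
          unfold adjI
          rw [h, Ideal.map_top, top_sup_eq]
        · exact h
      exact dep_adj (orig T) _ ht htop d i3 k2

end CMT
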