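import Pool.Agent.H43.CM.A.Iface
import Pool.Agent.H43.CM.Ch.Iface
import Pool.Agent.H43.CM.D.Base
import Pool.Agent.H43.CM.D.Good2
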